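import Pool.Agent.H5.AF.Gau
import Pool.Agent.H12.AF.Prob

/-!
helper5 (project MP_28250c_AF): the Hanson-Wright inequality for a column (`HWS`) from the exponential moments of linear forms
(`RowS`).
-/

set_option autoImplicit false

namespace ACpFrege

open MeasureTheory

theorem int_av {Ω X : Type} [Fintype Ω] [MeasureSpace X] (F : Ω → X → ℝ) (h : ∀ o, Integrable (F o)) :
    ∫ t, av (fun o => F o t) = av (fun o => ∫ t, F o t) := by
  unfold av
  rw [integral_div, integral_finsetSum _ fun o _ => h o]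

theorem int_av_int {Ω X : Type} [Fintype Ω] [MeasureSpace X] (F : Ω → X → ℝ) (h : ∀ o, Integrable (F o)) :
    Integrable (fun t => av (fun o => F o t)) := by
  unfold av
  exact (integrable_finsetSum _ fun o _ => h o).div_const _

theorem inv_sqrt_le {a : ℝ} (h0 : 0 ≤ a) (h1 : a ≤ 1 / 10) : (Real.sqrt (1 - a))⁻¹ ≤ Real.exp (0.53 * a) := by
  have h2 : 1 ≤ Real.exp (1.06 * a) * (1 - a) := by
    have := Real.quadratic_le_exp_of_nonneg (x := 1.06 * a) (by positivity)
    nlinarith [mul_nonneg h0 h0, mul_nonneg (mul_nonneg h0 h0) h0]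
  have h3 : Real.exp (1.06 * a) = Real.exp (0.53 * a) ^ 2 := by
    rw [← Real.exp_nat_mul]
    congr 1
    push_cast
    ring
  have h4 : 0 < Real.sqrt (1 - a) := Real.sqrt_pos.2 (by linarith)
  rw [inv_le_iff_one_le_mul₀ h4]
  have h5 : Real.sqrt (1 - a) ^ 2 = 1 - a := Real.sq_sqrt (by linarith)
  have h6 : 1 ≤ (Real.exp (0.53 * a) * Real.sqrt (1 - a)) ^ 2 := by
    rw [mul_pow, h5, ← h3]
    exact h2
  have h7 : 0 ≤ Real.exp (0.53 * a) * Real.sqrt (1 - a) := by positivity
  nlinarith

/-- The vector of the linear form. -/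
noncomputable def cvec {M : ℕ} (J : Finset ℕ) (v : ℕ → Fin M → ℂ) (a : ℕ → ℝ) (t : (J × Bool) → ℝ) : Fin M → ℂ :=
  ∑ j : J, ((Real.sqrt (2 * a j) : ℂ) * ((t (j, true) : ℂ) + Complex.I * (t (j, false) : ℂ))) • v j

theorem cvec_ip {M : ℕ} (J : Finset ℕ) (v : ℕ → Fin M → ℂ) (a : ℕ → ℝ) (t : (J × Bool) → ℝ) (r : Fin M → ℂ) :
    (ip (cvec J v a t) r).re =
      ∑ i : J × Bool, (Real.sqrt (2 * a i.1) * (if i.2 then (ip (v i.1) r).re else (ip (v i.1) r).im)) * t i := by
  unfold cvec
  rw [ip_sum_left, Complex.re_sum, Fintype.sum_prod_type]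
  refine Finset.sum_congr rfl fun j _ => ?_
  rw [ip_smul_left, Fintype.sum_bool]
  simp only [map_mul, map_add, Complex.conj_ofReal, Complex.conj_I, if_true, Bool.false_eq_true, if_false,
    Complex.mul_re, Complex.add_re, Complex.add_im, Complex.mul_im, Complex.neg_re, Complex.neg_im, Complex.I_re, Complex.I_im,
    Complex.ofReal_re, Complex.ofReal_im]
  ring

theorem cvec_nsq {M : ℕ} (J : Finset ℕ) (v : ℕ → Fin M → ℂ) (a : ℕ → ℝ) (t : (J × Bool) → ℝ)
    (hon : ∀ i ∈ J, ∀ j ∈ J, ip (v i) (v j) = if i = j then 1 else 0) (ha : ∀ j ∈ J, 0 ≤ a j) :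
    nsq (cvec J v a t) / 4 = ∑ i : J × Bool, a i.1 / 2 * t i ^ 2 := by
  have h1 : nsq (cvec J v a t) = (ip (cvec J v a t) (cvec J v a t)).re := nsq_eq_re _
  have h2 : ip (cvec J v a t) (cvec J v a t) =
      ∑ j : J, ((starRingEnd ℂ) ((Real.sqrt (2 * a j) : ℂ) * ((t (j, true) : ℂ) + Complex.I * (t (j, false) : ℂ)))) *
        ((Real.sqrt (2 * a j) : ℂ) * ((t (j, true) : ℂ) + Complex.I * (t (j, false) : ℂ))) := by
    have key : ∀ r : Fin M → ℂ, ip (cvec J v a t) r =
        ∑ j : J, ((starRingEnd ℂ) ((Real.sqrt (2 * a j) : ℂ) * ((t (j, true) : ℂ) + Complex.I * (t (j, false) : ℂ)))) *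
          ip (v j) r := by
      intro r
      unfold cvec
      rw [ip_sum_left]
      exact Finset.sum_congr rfl fun j _ => ip_smul_left _ _ _
    rw [key]
    refine Finset.sum_congr rfl fun j _ => ?_
    congr 1
    unfold cvec
    rw [ip_sum_right, Finset.sum_eq_single j]
    · rw [ip_smul_right, hon j j.2 j j.2, if_pos rfl, mul_one]
    · intro k _ hk
      rw [ip_smul_right, hon j j.2 k k.2, if_neg, mul_zero]
      exact fun e => hk (Subtype.ext e.symm)
    · exact fun h => absurd (Finset.mem_univ j) h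
  rw [h1, h2, Complex.re_sum, Finset.sum_div, Fintype.sum_prod_type]
  refine Finset.sum_congr rfl fun j _ => ?_
  rw [Fintype.sum_bool]
  have h3 : Real.sqrt (2 * a j) * Real.sqrt (2 * a j) = 2 * a j := Real.mul_self_sqrt (by linarith [ha j j.2])
  simp only [map_mul, map_add, Complex.conj_ofReal, Complex.conj_I,
    Complex.mul_re, Complex.add_re, Complex.add_im, Complex.mul_im, Complex.neg_re, Complex.neg_im, Complex.I_re, Complex.I_im,
    Complex.ofReal_re, Complex.ofReal_im]
  ring_nf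
  have h4 : Real.sqrt (2 * a j) ^ 2 = 2 * a j := by rw [sq, h3]
  have h5 : Real.sqrt (a j * 2) ^ 2 = 2 * a j := by rw [mul_comm]; exact h4
  rw [h5]
  ring

/-- The Hanson-Wright inequality for a column. -/
theorem hw_of_row (hR : RowS) : HWS := by
  intro b M q _ hb hq u g J v a hg hgu hvu hau hon ha
  -- the linearisation
  set W : ((J × Bool) → ℝ) → ℝ := fun t => ∏ i, gw (t i) with hW
  have hW0 : ∀ t, 0 ≤ W t := fun t => Finset.prod_nonneg fun i _ => gw_nonneg _
  have hlin : ∀ (o : Om b M q) (t : (J × Bool) → ℝ),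
      W t * Real.exp (ip (cvec J (v o) (a o) t) (col (HH o) u)).re =
        ∏ i, (gw (t i) * Real.exp ((Real.sqrt (2 * a o i.1) *
          (if i.2 then (ip (v o i.1) (col (HH o) u)).re else (ip (v o i.1) (col (HH o) u)).im)) * t i)) := by
    intro o t
    rw [Finset.prod_mul_distrib, cvec_ip, Real.exp_sum]
  have hquad : ∀ (o : Om b M q) (t : (J × Bool) → ℝ),
      W t * Real.exp (nsq (cvec J (v o) (a o) t) / 4) =
        ∏ i : J × Bool, (gw (t i) * Real.exp (a o i.1 / 2 * t i ^ 2)) := by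
    intro o t
    rw [Finset.prod_mul_distrib, cvec_nsq J (v o) (a o) t (hon o) (fun j hj => (ha o j hj).1), Real.exp_sum]
  have hlt : ∀ (o : Om b M q) (i : J × Bool), a o i.1 < 1 := fun o i => by
    have := (ha o i.1 i.1.2).2
    linarith
  -- left side
  have hL : ∀ o : Om b M q, g o * Real.exp (∑ j ∈ J, a o j * ‖ip (v o j) (col (HH o) u)‖ ^ 2) =
      ∫ t : (J × Bool) → ℝ, g o * (W t * Real.exp (ip (cvec J (v o) (a o) t) (col (HH o) u)).re) := by
    intro o
    rw [integral_const_mul]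
    congr 1
    simp_rw [hlin o]
    rw [gwp_lin]
    congr 1
    rw [Fintype.sum_prod_type, ← Finset.sum_coe_sort J fun j => a o j * ‖ip (v o j) (col (HH o) u)‖ ^ 2]
    refine Finset.sum_congr rfl fun j _ => ?_
    rw [Fintype.sum_bool]
    have h3 : Real.sqrt (2 * a o j) ^ 2 = 2 * a o j := Real.sq_sqrt (by linarith [(ha o j j.2).1])
    simp only [if_true, Bool.false_eq_true, if_false, mul_pow]
    rw [h3, ← Complex.normSq_eq_norm_sq, Complex.normSq_apply]
    ring
  have hLi : ∀ o : Om b M q,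
      Integrable fun t : (J × Bool) → ℝ => g o * (W t * Real.exp (ip (cvec J (v o) (a o) t) (col (HH o) u)).re) := by
    intro o
    refine Integrable.const_mul ?_ _
    simp_rw [hlin o]
    exact gwp_lin_int _
  have hQi : ∀ o : Om b M q,
      Integrable fun t : (J × Bool) → ℝ => g o * (W t * Real.exp (nsq (cvec J (v o) (a o) t) / 4)) := by
    intro o
    refine Integrable.const_mul ?_ _
    simp_rw [hquad o]
    exact gwp_quad_int (hlt o)
  have hQ : ∀ o : Om b M q, ∫ t : (J × Bool) → ℝ, g o * (W t * Real.exp (nsq (cvec J (v o) (a o) t) / 4)) ≤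
      g o * Real.exp (1.06 * ∑ j ∈ J, a o j) := by
    intro o
    rw [integral_const_mul]
    refine mul_le_mul_of_nonneg_left ?_ (hg o)
    simp_rw [hquad o]
    rw [gwp_quad (hlt o)]
    calc ∏ i : J × Bool, (Real.sqrt (1 - a o i.1))⁻¹ ≤ ∏ i : J × Bool, Real.exp (0.53 * a o i.1) :=
          Finset.prod_le_prod (fun i _ => by positivity) fun i _ => inv_sqrt_le (ha o i.1 i.1.2).1 (ha o i.1 i.1.2).2
      _ = Real.exp (1.06 * ∑ j ∈ J, a o j) := by
          rw [← Real.exp_sum, Fintype.sum_prod_type, ← Finset.sum_coe_sort J fun j => a o j, Finset.mul_sum]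
          congr 1
          refine Finset.sum_congr rfl fun j _ => ?_
          rw [Fintype.sum_bool]
          ring
  calc av (fun o => g o * Real.exp (∑ j ∈ J, a o j * ‖ip (v o j) (col (HH o) u)‖ ^ 2))
      = av (fun o => ∫ t : (J × Bool) → ℝ, g o * (W t * Real.exp (ip (cvec J (v o) (a o) t) (col (HH o) u)).re)) :=
        av_congr hL
    _ = ∫ t : (J × Bool) → ℝ, av (fun o => g o * (W t * Real.exp (ip (cvec J (v o) (a o) t) (col (HH o) u)).re)) :=
        (int_av _ hLi).symm
    _ ≤ ∫ t : (J × Bool) → ℝ, av (fun o => g o * (W t * Real.exp (nsq (cvec J (v o) (a o) t) / 4))) := by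
        refine integral_mono (int_av_int _ hLi) (int_av_int _ hQi) fun t => ?_
        have h := hR b M q hb hq u g (fun o => cvec J (v o) (a o) t) hg hgu (fun i u' v' s o ho => by
          dsimp only
          rw [hvu i u' v' s o ho, hau i u' v' s o ho])
        have e1 : (fun o : Om b M q => g o * (W t * Real.exp (ip (cvec J (v o) (a o) t) (col (HH o) u)).re)) =
            fun o => W t * (g o * Real.exp (ip (cvec J (v o) (a o) t) (col (HH o) u)).re) := by
          funext o
          ring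
        have e2 : (fun o : Om b M q => g o * (W t * Real.exp (nsq (cvec J (v o) (a o) t) / 4))) =
            fun o => W t * (g o * Real.exp (nsq (cvec J (v o) (a o) t) / 4)) := by
          funext o
          ring
        dsimp only
        rw [e1, e2, av_mul, av_mul]
        exact mul_le_mul_of_nonneg_left h (hW0 t)
    _ = av (fun o => ∫ t : (J × Bool) → ℝ, g o * (W t * Real.exp (nsq (cvec J (v o) (a o) t) / 4))) := int_av _ hQi
    _ ≤ _ := av_mono hQ

end ACpFrege
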