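import Pool.Agent.H5.AF.HW
import Pool.Agent.H88.AF.OmF

/-!
helper5 (project MP_28250c_AF): tails of the entries of the random matrix (`TailS`).
-/

set_option autoImplicit false

namespace ACpFrege

variable {b M q : ℕ}

/-- Off the diagonal, from Hanson-Wright with one vector. -/
theorem tail_col [NeZero q] (hH : HWS) (hb : 1 ≤ b) (hq : 3 ≤ q) (u v : Fin M) (huv : v ≠ u) (t : ℝ) (ht : 0 ≤ t) :
    pr (fun o : Om b M q => t < ‖HH o v u‖) ≤ 2 * Real.exp (-(t ^ 2 / 10)) := by
  have h := hH b M q hb hq u (fun _ => 1) {0} (fun _ _ => Pi.single v 1) (fun _ _ => 1 / 10) (fun _ => zero_le_one)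
    (fun _ _ _ _ _ _ => rfl) (fun _ _ _ _ _ _ => rfl) (fun _ _ _ _ _ _ => rfl)
    (fun o i hi j hj => by
      rw [Finset.mem_singleton] at hi hj
      subst hi hj
      rw [if_pos rfl, ip_self]
      have : nsq (Pi.single v (1 : ℂ)) = 1 := by
        unfold nsq
        rw [Finset.sum_eq_single v]
        · simp
        · intro w _ hw
          simp [Pi.single_eq_of_ne hw]
        · exact fun h => absurd (Finset.mem_univ _) h
      rw [this]
      norm_num)
    (fun o j hj => ⟨by norm_num, le_rfl⟩)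
  have e : ∀ o : Om b M q, ip (Pi.single v 1) (col (HH o) u) = HH o v u := by
    intro o
    unfold ip
    rw [Finset.sum_eq_single v]
    · simp [col, huv]
    · intro w _ hw
      simp [Pi.single_eq_of_ne hw]
    · exact fun h => absurd (Finset.mem_univ _) h
  simp only [Finset.sum_singleton, e, one_mul] at h
  have h2 : av (fun _ : Om b M q => Real.exp (1.06 * (1 / 10))) = Real.exp (1.06 * (1 / 10)) := av_const _
  rw [h2] at h
  have h3 : pr (fun o : Om b M q => t < ‖HH o v u‖) ≤
      pr (fun o : Om b M q => Real.exp (t ^ 2 / 10) ≤ Real.exp (1 / 10 * ‖HH o v u‖ ^ 2)) := by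
    refine pr_mono fun o ho => Real.exp_le_exp.2 ?_
    have := pow_le_pow_left₀ ht ho.le 2
    linarith
  refine h3.trans ((markov (fun o => (Real.exp_pos _).le) (Real.exp_pos _)).trans ?_)
  rw [div_le_iff₀ (Real.exp_pos _), mul_assoc, ← Real.exp_add, neg_add_cancel, Real.exp_zero, mul_one]
  refine h.trans ?_
  have h4 : Real.exp (1.06 * (1 / 10)) ≤ Real.exp 0.5 := Real.exp_le_exp.2 (by norm_num)
  have h5 : Real.exp 0.5 ^ 2 = Real.exp 1 := by
    rw [← Real.exp_nat_mul]
    norm_num
  have h6 := Real.exp_one_lt_d9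
  nlinarith [Real.exp_pos 0.5]

/-- The real sign of a residue modulo `2q`. -/
def sgr {q : ℕ} (a : ZMod (2 * q)) : ℝ := (-1) ^ a.val

theorem sgr_cases {q : ℕ} (a : ZMod (2 * q)) : sgr a = 1 ∨ sgr a = -1 := by
  unfold sgr
  exact neg_one_pow_eq_or ℝ _

theorem av_sgr [NeZero q] : av (fun a : ZMod (2 * q) => sgr a) = 0 := by
  have h := sum_sgn (q := q)
  have h2 : ((∑ a : ZMod (2 * q), sgr a : ℝ) : ℂ) = 0 := by
    rw [← h]
    push_cast
    refine Finset.sum_congr rfl fun a _ => ?_
    unfold sgr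
    push_cast
    rfl
  have h3 : ∑ a : ZMod (2 * q), sgr a = 0 := by exact_mod_cast h2
  unfold av
  rw [h3, zero_div]

theorem av_exp_sgr [NeZero q] (c : ℝ) : av (fun a : ZMod (2 * q) => Real.exp (c * sgr a)) = Real.cosh c := by
  have e : (fun a : ZMod (2 * q) => Real.exp (c * sgr a)) = fun a => Real.cosh c + Real.sinh c * sgr a := by
    funext a
    rcases sgr_cases a with h | h
    · rw [h, mul_one, mul_one, Real.cosh_add_sinh]
    · rw [h, mul_neg, mul_one, mul_neg, mul_one, ← Real.cosh_sub_sinh, sub_eq_add_neg]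
  rw [e, av_add, av_mul, av_sgr, mul_zero, add_zero, av_const]

/-- Averages of products over distinct coordinates. -/
theorem av_prod_diag [NeZero q] (u : Fin M) (f : ZMod (2 * q) → ℝ) (S : Finset (Fin b)) :
    av (fun o : (Fin b × Fin M × Fin M) → ZMod (2 * q) => ∏ i ∈ S, f (o (i, u, u))) = (av f) ^ S.card := by
  classical
  induction S using Finset.induction_on with
  | empty => simp [av_const]
  | insert i S hi ih =>
    have e : (fun o : (Fin b × Fin M × Fin M) → ZMod (2 * q) => ∏ j ∈ insert i S, f (o (j, u, u))) =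
        fun o => (∏ j ∈ S, f (o (j, u, u))) * f (o (i, u, u)) := by
      funext o
      rw [Finset.prod_insert hi, mul_comm]
    have hind : Ind (i, u, u) (fun o : (Fin b × Fin M × Fin M) → ZMod (2 * q) => ∏ j ∈ S, f (o (j, u, u))) := by
      intro o k
      refine Finset.prod_congr rfl fun j hj => ?_
      rw [Function.update_of_ne]
      intro h
      have : j = i := by
        have := congrArg Prod.fst h
        exact this
      exact hi (this ▸ hj)
    rw [e, av_mul_ind hind]
    have e2 : ∀ o : (Fin b × Fin M × Fin M) → ZMod (2 * q), cav (i, u, u) (fun o => f (o (i, u, u))) o = av f := by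
      intro o
      unfold cav
      simp only [Function.update_self]
    simp only [e2]
    rw [av_mul', ih, Finset.card_insert_of_notMem hi, pow_succ]

/-- The real diagonal entry. -/
noncomputable def dg (o : Om b M q) (u : Fin M) : ℝ := (Real.sqrt b)⁻¹ * ∑ i, sgr (o i u u)

theorem dg_norm (o : Om b M q) (u : Fin M) : ‖HH o u u‖ = |dg o u| := by
  have : HH o u u = ((dg o u : ℝ) : ℂ) := by
    unfold HH dg lay sgr
    push_cast
    congr 1
    refine Finset.sum_congr rfl fun i _ => ?_
    rw [if_neg (lt_irrefl _), if_neg (lt_irrefl _)]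
  rw [this, Complex.norm_real, Real.norm_eq_abs]

theorem dg_mgf [NeZero q] (hb : 1 ≤ b) (u : Fin M) (s : ℝ) :
    av (fun o : Om b M q => Real.exp (s * dg o u)) ≤ Real.exp (s ^ 2 / 2) := by
  have hb0 : (0 : ℝ) < b := by exact_mod_cast hb
  have e : (fun o : Om b M q => Real.exp (s * dg o u)) = fun o =>
      (fun o' : (Fin b × Fin M × Fin M) → ZMod (2 * q) =>
        ∏ i ∈ (Finset.univ : Finset (Fin b)), (fun a => Real.exp (s * (Real.sqrt b)⁻¹ * sgr a)) (o' (i, u, u)))
        (omE b M q o) := by
    funext o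
    dsimp only
    rw [← Real.exp_sum]
    congr 1
    unfold dg omE
    rw [← Finset.mul_sum]
    ring_nf
    rfl
  rw [e, av_equiv (omE b M q) (fun o' : (Fin b × Fin M × Fin M) → ZMod (2 * q) =>
      ∏ i ∈ (Finset.univ : Finset (Fin b)), (fun a => Real.exp (s * (Real.sqrt b)⁻¹ * sgr a)) (o' (i, u, u))),
    av_prod_diag u (fun a : ZMod (2 * q) => Real.exp (s * (Real.sqrt b)⁻¹ * sgr a)) Finset.univ, av_exp_sgr,
    Finset.card_univ, Fintype.card_fin]
  refine (pow_le_pow_left₀ (Real.cosh_pos _).le (Real.cosh_le_exp_half_sq _) b).trans (le_of_eq ?_)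
  rw [← Real.exp_nat_mul]
  congr 1
  rw [mul_pow, inv_pow, Real.sq_sqrt hb0.le]
  field_simp

/-- The tail bound. -/
theorem tail_of_hw (hH : HWS) : TailS := by
  intro b M q _ hb hq u v t ht
  by_cases huv : u = v
  · subst huv
    have h1 : ∀ σ : ℝ, σ ^ 2 = 1 → pr (fun o : Om b M q => t ≤ σ * dg o u) ≤ Real.exp (-(t ^ 2 / 2)) := by
      intro σ hσ
      have h2 : pr (fun o : Om b M q => t ≤ σ * dg o u) ≤
          pr (fun o : Om b M q => Real.exp (t ^ 2) ≤ Real.exp (t * σ * dg o u)) := by
        refine pr_mono fun o ho => Real.exp_le_exp.2 ?_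
        have := mul_le_mul_of_nonneg_left ho ht
        nlinarith
      refine h2.trans ((markov (fun o => (Real.exp_pos _).le) (Real.exp_pos _)).trans ?_)
      rw [div_le_iff₀ (Real.exp_pos _), ← Real.exp_add]
      refine (dg_mgf hb u (t * σ)).trans (Real.exp_le_exp.2 ?_)
      rw [mul_pow, hσ]
      linarith
    have h3 : pr (fun o : Om b M q => t < ‖HH o u u‖) ≤
        pr (fun o : Om b M q => t ≤ 1 * dg o u ∨ t ≤ (-1) * dg o u) := by
      refine pr_mono fun o ho => ?_
      rw [dg_norm] at ho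
      rcases lt_abs.1 ho with h | h
      · exact Or.inl (by linarith)
      · exact Or.inr (by linarith)
    have h4 := h1 1 (by norm_num)
    have h5 := h1 (-1) (by norm_num)
    have h6 := (h3.trans (pr_or _ _)).trans (add_le_add h4 h5)
    refine h6.trans ?_
    have h7 : Real.exp (-(t ^ 2 / 2)) ≤ Real.exp (-(t ^ 2 / 10)) := Real.exp_le_exp.2 (by nlinarith [sq_nonneg t])
    linarith
  · exact tail_col hH hb hq v u huv t ht

end ACpFrege
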