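import Mathlib

/-!
helper5 (project MP_28250c_AF): Gaussian integrals over `ι → ℝ` used to linearise squares (Hanson-Wright lemma).
-/

set_option autoImplicit false

namespace ACpFrege

open MeasureTheory

/-- The density of the standard normal law. -/
noncomputable def gw (t : ℝ) : ℝ := Real.exp (-(t ^ 2 / 2)) / Real.sqrt (2 * Real.pi)

theorem gw_nonneg (t : ℝ) : 0 ≤ gw t := by unfold gw; positivity

theorem gw_quad_int {a : ℝ} (ha : a < 1) : Integrable (fun t : ℝ => gw t * Real.exp (a / 2 * t ^ 2)) := by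
  have h := (integrable_exp_neg_mul_sq (b := (1 - a) / 2) (by linarith)).div_const (Real.sqrt (2 * Real.pi))
  refine h.congr (Filter.Eventually.of_forall fun t => ?_)
  unfold gw
  dsimp only
  rw [div_mul_eq_mul_div, ← Real.exp_add]
  congr 2
  ring

theorem gw_quad {a : ℝ} (ha : a < 1) : ∫ t : ℝ, gw t * Real.exp (a / 2 * t ^ 2) = (Real.sqrt (1 - a))⁻¹ := by
  have h := integral_gaussian ((1 - a) / 2)
  have e : (fun t : ℝ => gw t * Real.exp (a / 2 * t ^ 2)) =
      fun t => (Real.sqrt (2 * Real.pi))⁻¹ * Real.exp (-((1 - a) / 2) * t ^ 2) := by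
    funext t
    unfold gw
    rw [div_mul_eq_mul_div, ← Real.exp_add, div_eq_inv_mul]
    congr 2
    ring
  rw [e, integral_const_mul, h, ← Real.sqrt_inv, ← Real.sqrt_inv, ← Real.sqrt_mul (by positivity)]
  congr 1
  have h1 : (1 - a) ≠ 0 := by linarith
  have h2 : Real.pi ≠ 0 := Real.pi_ne_zero
  field_simp

theorem gw_lin_int (x : ℝ) : Integrable (fun t : ℝ => gw t * Real.exp (x * t)) := by
  have h := ((integrable_exp_neg_mul_sq (b := 1 / 2) (by norm_num)).comp_sub_right x).const_mul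
    (Real.exp (x ^ 2 / 2) / Real.sqrt (2 * Real.pi))
  refine h.congr (Filter.Eventually.of_forall fun t => ?_)
  unfold gw
  dsimp only
  rw [div_mul_eq_mul_div, div_mul_eq_mul_div, ← Real.exp_add, ← Real.exp_add]
  congr 2
  ring

theorem gw_lin (x : ℝ) : ∫ t : ℝ, gw t * Real.exp (x * t) = Real.exp (x ^ 2 / 2) := by
  have e : (fun t : ℝ => gw t * Real.exp (x * t)) =
      fun t => Real.exp (x ^ 2 / 2) * (gw (t - x)) := by
    funext t
    unfold gw
    rw [div_mul_eq_mul_div, mul_div_assoc', ← Real.exp_add, ← Real.exp_add]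
    congr 2
    ring
  rw [e, integral_const_mul, integral_sub_right_eq_self (μ := volume) gw x]
  have h := gw_quad (a := 0) (by norm_num)
  simp only [zero_div, zero_mul, Real.exp_zero, mul_one, sub_zero, Real.sqrt_one, inv_one] at h
  rw [h, mul_one]

variable {ι : Type} [Fintype ι]

theorem gwp_lin_int (x : ι → ℝ) : Integrable (fun t : ι → ℝ => ∏ i, (gw (t i) * Real.exp (x i * t i))) :=
  Integrable.fintype_prod (f := fun i (s : ℝ) => gw s * Real.exp (x i * s)) fun i => gw_lin_int (x i)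

theorem gwp_lin (x : ι → ℝ) : ∫ t : ι → ℝ, ∏ i, (gw (t i) * Real.exp (x i * t i)) = Real.exp (∑ i, x i ^ 2 / 2) := by
  rw [integral_fintype_prod_volume_eq_prod (f := fun i (s : ℝ) => gw s * Real.exp (x i * s)), Real.exp_sum]
  exact Finset.prod_congr rfl fun i _ => gw_lin (x i)

theorem gwp_quad_int {a : ι → ℝ} (ha : ∀ i, a i < 1) :
    Integrable (fun t : ι → ℝ => ∏ i, (gw (t i) * Real.exp (a i / 2 * t i ^ 2))) :=
  Integrable.fintype_prod (f := fun i (s : ℝ) => gw s * Real.exp (a i / 2 * s ^ 2)) fun i => gw_quad_int (ha i)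

theorem gwp_quad {a : ι → ℝ} (ha : ∀ i, a i < 1) :
    ∫ t : ι → ℝ, ∏ i, (gw (t i) * Real.exp (a i / 2 * t i ^ 2)) = ∏ i, (Real.sqrt (1 - a i))⁻¹ := by
  rw [integral_fintype_prod_volume_eq_prod (f := fun i (s : ℝ) => gw s * Real.exp (a i / 2 * s ^ 2))]
  exact Finset.prod_congr rfl fun i _ => gw_quad (ha i)

end ACpFrege
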