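import Pool.Agent.H12.AF.Prob

/-!
helper5 (project MP_28250c_AF): all entries of the random matrix are at most `L` (`OutE`), from the tail bound `TailS`.
-/

set_option autoImplicit false

namespace ACpFrege

/-- A number `L₀` beyond which the exponential wins. -/
theorem exp_beats (k : ℕ) (C : ℝ) : ∃ L₀ : ℕ, ∀ L : ℕ, L₀ ≤ L → C * ((L : ℝ) + 1) ^ k ≤ Real.exp ((L : ℝ) ^ 2 / 10) := by
  have h1 := Real.tendsto_pow_mul_exp_neg_atTop_nhds_zero k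
  have h2 : Filter.Tendsto (fun x : ℝ => C * (x ^ k * Real.exp (-x))) Filter.atTop (nhds 0) := by
    have := h1.const_mul C
    rwa [mul_zero] at this
  have h3 := h2.eventually (gt_mem_nhds (zero_lt_one))
  obtain ⟨x₀, hx₀⟩ := Filter.eventually_atTop.1 h3
  obtain ⟨n₀, hn₀⟩ := exists_nat_ge x₀
  refine ⟨max n₀ 12, fun L hL => ?_⟩
  have hL1 : (n₀ : ℝ) ≤ L := by exact_mod_cast (le_max_left _ _).trans hL
  have hL2 : (12 : ℝ) ≤ L := by exact_mod_cast (le_max_right _ _).trans hL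
  have h4 := hx₀ ((L : ℝ) + 1) (by linarith)
  have h5 : Real.exp ((L : ℝ) + 1) ≤ Real.exp ((L : ℝ) ^ 2 / 10) := Real.exp_le_exp.2 (by nlinarith)
  refine le_trans ?_ h5
  have h6 : 0 < Real.exp ((L : ℝ) + 1) := Real.exp_pos _
  have h7 : C * (((L : ℝ) + 1) ^ k * Real.exp (-((L : ℝ) + 1))) * Real.exp ((L : ℝ) + 1) = C * ((L : ℝ) + 1) ^ k := by
    rw [mul_assoc, mul_assoc, ← Real.exp_add, neg_add_cancel, Real.exp_zero, mul_one]
  nlinarith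

theorem pow_aux {L₀ M L e : ℕ} (h1 : (L₀ + 1) ^ e ≤ M) (h2 : M < (L + 1) ^ e) : L₀ ≤ L ∧ 0 < M := by
  have h3 : L₀ + 1 < L + 1 := lt_of_pow_lt_pow_left₀ e (Nat.zero_le _) (lt_of_le_of_lt h1 h2)
  exact ⟨(Nat.succ_lt_succ_iff.1 h3).le, lt_of_lt_of_le (by positivity) h1⟩

theorem cube_aux {M L e : ℕ} (h : M < (L + 1) ^ e) : (M : ℝ) ^ 3 ≤ ((L : ℝ) + 1) ^ (e * 3) := by
  have h1 : (M : ℝ) ≤ ((L : ℝ) + 1) ^ e := by exact_mod_cast h.le
  calc (M : ℝ) ^ 3 ≤ (((L : ℝ) + 1) ^ e) ^ 3 := pow_le_pow_left₀ (Nat.cast_nonneg _) h1 3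
    _ = _ := by rw [← pow_mul]

theorem outE_of_tail (hT : TailS) : OutE := by
  intro q hq
  obtain ⟨L₀, hL₀⟩ := exp_beats (400 * 3) 16
  refine ⟨(L₀ + 1) ^ 400, fun M hM L hL1 hL2 b hb _ => ?_⟩
  obtain ⟨hLL, hM0⟩ := pow_aux hM hL2
  have hMr : (0 : ℝ) < M := by exact_mod_cast hM0
  have key := hL₀ L hLL
  have hM3 : (M : ℝ) ^ 3 ≤ ((L : ℝ) + 1) ^ (400 * 3) := cube_aux hL2
  clear hM hL1 hL2
  have hub : pr (fun o : Om b M q => ∃ u v, (L : ℝ) < ‖HH o u v‖) ≤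
      ∑ p : Fin M × Fin M, pr (fun o : Om b M q => (L : ℝ) < ‖HH o p.1 p.2‖) := by
    refine (pr_mono fun o ho => ?_).trans (pr_exists Finset.univ fun (p : Fin M × Fin M) (o : Om b M q) => (L : ℝ) < ‖HH o p.1 p.2‖)
    obtain ⟨u, v, h⟩ := ho
    exact ⟨(u, v), Finset.mem_univ _, h⟩
  refine hub.trans ?_
  calc ∑ p : Fin M × Fin M, pr (fun o : Om b M q => (L : ℝ) < ‖HH o p.1 p.2‖)
      ≤ ∑ _p : Fin M × Fin M, 2 * Real.exp (-((L : ℝ) ^ 2 / 10)) :=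
        Finset.sum_le_sum fun p _ => hT b M q hb hq p.1 p.2 L (Nat.cast_nonneg _)
    _ = (M : ℝ) ^ 2 * (2 * Real.exp (-((L : ℝ) ^ 2 / 10))) := by
        rw [Finset.sum_const, Finset.card_univ, Fintype.card_prod, Fintype.card_fin, nsmul_eq_mul]
        push_cast
        ring
    _ ≤ 1 / (8 * M) := by
        rw [Real.exp_neg, le_div_iff₀ (by positivity)]
        have h6 : 0 < Real.exp ((L : ℝ) ^ 2 / 10) := Real.exp_pos _
        have h7 : (M : ℝ) ^ 2 * (2 * (Real.exp ((L : ℝ) ^ 2 / 10))⁻¹) * (8 * M) =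
            16 * (M : ℝ) ^ 3 / Real.exp ((L : ℝ) ^ 2 / 10) := by
          field_simp
          ring
        rw [h7, div_le_one h6]
        exact (mul_le_mul_of_nonneg_left hM3 (by norm_num)).trans key

end ACpFrege
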